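import Pool.Agent.K4H70.CH.Final

/-!
An exact criterion for the vanishing of the simplicial volume of right-angled Davis manifolds.

Let `L` be the flag complex of the finite graph `G`, let `W G` be the right-angled Coxeter group of `G`
and `Σ` its Davis complex. Let `H` be a subgroup of finite index of `W G` which consists of elements of
even length (they preserve the orientation). A real cycle `z` of `L` of dimension `n - 1` gives the
homology class `fund G H z` of degree `n` of `H`: the sum, over the right cosets `H x` and the simplices
`s = (s₀, …, s_{n-1})` of `z`, with the sign of `x`, of the simplices with the vertices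
`x, x s₀, x s₀ s₁, …` of `Σ`, mapped to the bar complex of `H` by an equivariant map. If `L` is a
homology sphere with fundamental cycle `z` and `H` is torsion-free, then `M = Σ/H` is a closed oriented
aspherical (homology) manifold of dimension `n` with fundamental group `H`, and the class is a
nonzero multiple of its fundamental class.

Let `Ĝ` be the graph whose vertices are the vertices of `G` and the ordered pairs `(f, b)` of distinct
nonadjacent vertices of `G`, where `(f, b)` is adjacent to `f`, to `b` and to the common neighbours of
`f` and `b`, and two pairs are adjacent if each member of one of them is adjacent to each member of the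
other. The theorem: the class has norm zero if and only if `z` is a boundary in the flag complex
of `Ĝ`. In particular `‖M‖ = 0` if and only if the fundamental cycle of `L` is zero in the homology of
the flag complex of `Ĝ`.

Proof. If `z` does not bound, a simplicial cocycle of the flag complex of `Ĝ` which does not vanish on
`z` gives a bounded cocycle of `W G` (a sum of local terms in the descent sets). If `z` bounds, then
the class is a sum of pieces which are spread out by almost invariant means on the infinite dihedral
groups generated by the pairs `f, b`; a pair has to be counted with the weight two.
-/

set_option autoImplicit false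

open scoped Classical

namespace Pool.Agent.Results.MP_8a95ee_gt.ExactCriterion

open Pool.Agent.W907.SG (W)
open Pool.Agent.Q134.SV (par IsCyc push)
open Pool.Agent.K4H70.SV (LChain)
open Pool.Agent.K4H70.CH (NormZero fund Hat NP)

/-- Let `n ≥ 1`, let `z` be a real cycle of dimension `n - 1` of the flag complex of the finite graph
`G`, and let `H` be a subgroup of finite index of `W G` which consists of elements of even length.
The class of `z` in the homology of `H` of degree `n` is represented by chains of arbitrarily small
`ℓ¹`-norm if and only if `z` is a boundary in the flag complex of the graph `Hat G`. -/
theorem result (n : ℕ) (hn : 1 ≤ n) (V : Type) [Fintype V] (G : SimpleGraph V)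
    (z : (Fin n → V) → ℝ) (hz : IsCyc n G z) (H : Subgroup (W G)) (hH : H.index ≠ 0)
    (hε : H ≤ (par G).ker) :
    NormZero n (fund G H z) ↔
      ∃ b : (Fin (n + 1) → V ⊕ NP G) → ℝ, LChain (Hat G) ∅ b ∧
        ∀ y, ∑ x, b (Fin.cons x y) = push (Sum.inl : V → V ⊕ NP G) z y := by
  obtain ⟨m, rfl⟩ : ∃ m, n = m + 1 := ⟨n - 1, by omega⟩
  simp only [← Pool.Agent.K4H70.CH.hatc_eq_push]
  exact Pool.Agent.K4H70.CH.characterisation hz hH hε

end Pool.Agent.Results.MP_8a95ee_gt.ExactCriterion
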