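import Pool.Agent.K4H70.L2.Main

/-!
The right-angled Davis manifolds of zero simplicial volume: all their L2-Betti numbers vanish.

Let `G` be a finite graph whose flag complex `L` is a generalised homology sphere of dimension `n - 1`,
and let `S` be the Davis complex of the right-angled Coxeter group `W G`: the CAT(0) cube complex with
the vertex set `W G`, whose cubes at the vertex `x` are spanned by the edges from `x` to `x s`, where
`s` runs through a set of pairwise adjacent vertices of `G`. It is a contractible (homology) manifold
of dimension `n`. If the torsion-free subgroup `H` of finite index in `W G` consists of elements of even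
length, then `M = S/H` is a closed oriented aspherical manifold with the fundamental group `H`.

`cochains G Γ k` and `coboundary G k` are the cellular cochains of the cube complex `S/Γ` with real
coefficients, and `betti G Γ k` is the `k`-th Betti number of `S/Γ`.

The theorem: if the simplicial volume of `M` is zero, then for each Farber sequence `Γ j` of subgroups
of finite index of `W G` (for example a residual chain of normal subgroups of `H`) and for each `i`
the `i`-th Betti number of `S/(Γ j)` divided by the index of `Γ j` tends to zero. By the theorem of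
Lück and Farber this says that all L2-Betti numbers of `M` are zero.
-/

set_option autoImplicit false

open scoped Classical Topology
open Filter

namespace Pool.Agent.Results.MP_8a95ee_gt.L2BettiNumbers

open Pool.Agent.W907.SG (W)
open Pool.Agent.Q134.SV (gen par ZeroSV)
open Pool.Agent.K4H70.SV (HSphere)

section

variable {V : Type} (G : SimpleGraph V)

/-- The cellular `k`-cochains of the cube complex `S/Γ`: real functions `c x s` of a vertex `x` of `S`
and a `k`-tuple `s` of pairwise adjacent vertices of `G` (the value on the cube at `x` spanned by the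
edges from `x` to `x (s i)`, in this order), invariant under `Γ`, alternating in `s`, and changing
their sign if the corner `x` of the cube is moved along an edge of the cube. -/
structure IsCochain (Γ : Subgroup (W G)) {k : ℕ} (c : W G → (Fin k → V) → ℝ) : Prop where
  invariant : ∀ g ∈ Γ, ∀ x, c (g * x) = c x
  alternating : ∀ x s, ∀ i j : Fin k, i ≠ j → c x (s ∘ Equiv.swap i j) = - c x s
  cubes : ∀ x s, c x s ≠ 0 → ∀ i j, i ≠ j → G.Adj (s i) (s j)
  flip : ∀ x s i, c (x * gen G (s i)) s = - c x s

lemma isCochain_iff {Γ : Subgroup (W G)} {k : ℕ} {c : W G → (Fin k → V) → ℝ} :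
    IsCochain G Γ c ↔ c ∈ Pool.Agent.K4H70.L2.cochains G Γ k :=
  ⟨fun h => ⟨h.1, h.2, h.3, h.4⟩, fun h => ⟨h.1, h.2.1, h.2.2.1, h.2.2.2⟩⟩

/-- the space of the cellular `k`-cochains of `S/Γ` -/
def cochains (Γ : Subgroup (W G)) (k : ℕ) : Submodule ℝ (W G → (Fin k → V) → ℝ) where
  carrier := {c | IsCochain G Γ c}
  add_mem' h h' := (isCochain_iff G).2
    (Submodule.add_mem _ ((isCochain_iff G).1 h) ((isCochain_iff G).1 h'))
  zero_mem' := (isCochain_iff G).2 (Submodule.zero_mem _)
  smul_mem' a _ h := (isCochain_iff G).2 (Submodule.smul_mem _ a ((isCochain_iff G).1 h))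

/-- The cellular coboundary: the sum over the faces of the cube at `x` spanned by `s`, with signs. -/
noncomputable def cob {k : ℕ} (c : W G → (Fin k → V) → ℝ) (x : W G) (s : Fin (k + 1) → V) : ℝ :=
  if ∀ i j, i ≠ j → G.Adj (s i) (s j) then
    ∑ i : Fin (k + 1), (-1 : ℝ) ^ (i : ℕ) *
      (c (x * gen G (s i)) (s ∘ i.succAbove) - c x (s ∘ i.succAbove)) else 0

/-- the cellular coboundary as a linear map -/
noncomputable def coboundary (k : ℕ) :
    (W G → (Fin k → V) → ℝ) →ₗ[ℝ] (W G → (Fin (k + 1) → V) → ℝ) where
  toFun c := cob G c
  map_add' := (Pool.Agent.K4H70.L2.coboundary G k).map_add'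
  map_smul' := (Pool.Agent.K4H70.L2.coboundary G k).map_smul'

/-- the cocycles of `S/Γ` -/
noncomputable def cocycles (Γ : Subgroup (W G)) (k : ℕ) : Submodule ℝ (W G → (Fin k → V) → ℝ) :=
  cochains G Γ k ⊓ LinearMap.ker (coboundary G k)

/-- The Betti numbers of `S/Γ`: the dimension of the cocycles minus that of the coboundaries. -/
noncomputable def betti (Γ : Subgroup (W G)) : ℕ → ℕ
  | 0 => Module.finrank ℝ (cocycles G Γ 0)
  | k + 1 => Module.finrank ℝ (cocycles G Γ (k + 1)) -
      Module.finrank ℝ ((cochains G Γ k).map (coboundary G k))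

end

/-- A Farber sequence of subgroups of finite index: for each `g ≠ 1` the proportion of the cosets
which are fixed by `g` tends to zero. -/
def Farber {D : Type} [Group D] (Γ : ℕ → Subgroup D) : Prop :=
  (∀ j, (Γ j).index ≠ 0) ∧ ∀ g : D, g ≠ 1 →
    Tendsto (fun j => (Nat.card {q : D ⧸ Γ j // g • q = q} : ℝ) / (Γ j).index) atTop (𝓝 0)

/-- Let the flag complex of `G` be a generalised homology sphere of dimension `n - 1`, and let `H` be a
subgroup of finite index of `W G` which consists of elements of even length. If every bounded real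
`n`-cocycle of `H` is a coboundary, then all Betti numbers grow sublinearly along each Farber sequence
of subgroups of finite index. -/
theorem result (n : ℕ) (hn : 1 ≤ n) (V : Type) [Fintype V] (G : SimpleGraph V) (hG : HSphere n G)
    (H : Subgroup (W G)) (hH : H.index ≠ 0) (heven : H ≤ (par G).ker) (hz : ZeroSV n H)
    (Γ : ℕ → Subgroup (W G)) (hΓ : Farber Γ) (i : ℕ) :
    Tendsto (fun j => (betti G (Γ j) i : ℝ) / (Γ j).index) atTop (𝓝 0) := by
  obtain ⟨m, rfl⟩ : ∃ m, n = m + 1 := ⟨n - 1, by omega⟩
  have h := Pool.Agent.K4H70.L2.l2_betti hG H hH heven hz Γ hΓ i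
  have e0 : ∀ (Δ : Subgroup (W G)) (k : ℕ), cochains G Δ k = Pool.Agent.K4H70.L2.cochains G Δ k :=
    fun Δ k => Submodule.ext fun c => isCochain_iff G
  have e1 : ∀ k : ℕ, coboundary G k = Pool.Agent.K4H70.L2.coboundary G k := fun _ => rfl
  have e : ∀ Δ : Subgroup (W G), betti G Δ i = Pool.Agent.K4H70.L2.betti G Δ i := by
    intro Δ
    cases i with
    | zero =>
      change Module.finrank ℝ (cochains G Δ 0 ⊓ LinearMap.ker (coboundary G 0) : Submodule ℝ _) = _
      rw [e0, e1]
      rfl
    | succ k =>
      change Module.finrank ℝ (cochains G Δ (k + 1) ⊓ LinearMap.ker (coboundary G (k + 1)) :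
        Submodule ℝ _) - Module.finrank ℝ ((cochains G Δ k).map (coboundary G k)) = _
      rw [e0, e0, e1, e1]
      rfl
  simp only [e]
  exact h

end Pool.Agent.Results.MP_8a95ee_gt.L2BettiNumbers
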