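import Pool.Agent.K4H70.RT.Main

/-!
Gromov's question for the closed aspherical manifolds made by the reflection group trick of Davis.

Let `N` be a compact connected oriented aspherical manifold of dimension `n` with nonempty boundary and
fundamental group `P`. Triangulate `N` as the flag complex of a finite graph `K` such that the boundary
is a full subcomplex, the flag complex of `T = K.comap ι`, where `ι : V → X` is the inclusion of the
vertices of the boundary. The universal covering of `N` is the flag complex of the covering `cov K g` of
`K` given by voltages `g : X → X → P`; the preimage of the boundary is the flag complex of `bcov K ι g`.
The boundary of the universal covering is divided into the dual cells (mirrors) of its vertices, and the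
reflection group trick glues the copies `w Ñ` of the universal covering, `w` in the right-angled Coxeter
group `W (bcov K ι g)`, along these mirrors. The result is a contractible manifold of dimension `n`, on
which the group `Gam K ι g = W (bcov K ι g) ⋊ P` acts properly with compact quotient. The quotients
`M` by the torsion-free subgroups `H` of finite index which preserve the orientation are closed oriented
aspherical manifolds; they exist for each `N` and retract to `N` (if `H` contains `P`). In this way the
fundamental groups of closed aspherical manifolds contain arbitrary groups with a finite `K(π, 1)`.
The Euler characteristic of `M` is the index of `H` times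

  `χ(N) + ∑_T (-1/2)^|T| - 1 = eulerChar K + chiW (K.comap ι) - 1`,

where `T` runs through the simplices (also the empty one) of the boundary.

The theorem: if the simplicial volume of `M` is zero, then this number is zero. The triangulation of
the boundary has to be fine: closed paths with four edges in the boundary are contractible in `N` (this
is true for all barycentric subdivisions).

The right-angled Davis manifolds are the case that `N` is a cone (a ball, if `T` is a sphere).
-/

set_option autoImplicit false

open scoped Classical

namespace Pool.Agent.Results.MP_8a95ee_gt.ReflectionTrick

open Pool.Agent.W907.SG (chiW)
open Pool.Agent.Q134.SV (ZeroSV)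
open Pool.Agent.K4H70.RT (MPair FAcy Vo cov Gam Oriented eulerChar)

/-- The flag complex of the finite graph `K` is a compact oriented aspherical (real homology) manifold
`N` of dimension `n` with nonempty boundary, the full subcomplex on the vertices `ι v`, and with the
fundamental chain `z`; the voltages `g` in `P` define a covering of `N` (`Vo.inv`, `Vo.tri`: the product
of the voltages of an edge and the inverse edge and of the three edges of a triangle is 1), which is
acyclic (so `P` is the fundamental group of `N`, if this is the universal covering), and the product of
the voltages of a closed path of length four in the boundary is 1. -/
structure Chamber (n : ℕ) {P X V : Type} [Group P] [Fintype X] [Fintype V] (K : SimpleGraph X)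
    (ι : V → X) (z : (Fin (n + 1) → X) → ℝ) (g : X → X → P) : Prop where
  manifold : MPair n K ι z
  voltage : Vo K ι g
  acyclic : FAcy (cov K g)

/-- Let `N` be a compact oriented aspherical manifold of dimension `n ≥ 1` with boundary as above, and
let `H` be a subgroup of finite index of the group `W (bcov K ι g) ⋊ P` of the reflection group trick,
which preserves the orientation. If every bounded real `n`-cocycle of `H` is a coboundary, then the
Euler characteristic `χ(N) + χ(W_T) - 1` of the group `W (bcov K ι g) ⋊ P` is zero. -/
theorem result (n : ℕ) (hn : 1 ≤ n) (P X V : Type) [Group P] [Fintype X] [Fintype V]
    (K : SimpleGraph X) (ι : V → X) (z : (Fin (n + 1) → X) → ℝ) (g : X → X → P)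
    (hN : Chamber n K ι z g) (H : Subgroup (Gam K ι g)) (hH : H.index ≠ 0)
    (hε : Oriented K ι g H) (hz : ZeroSV n H) :
    eulerChar K + chiW (K.comap ι) - 1 = 0 :=
  Pool.Agent.K4H70.RT.main_theorem hN.manifold hN.voltage hN.acyclic hn H hH hε hz

end Pool.Agent.Results.MP_8a95ee_gt.ReflectionTrick
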