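import Pool.Agent.K4H70.SC.Main

/-!
Gromov's question for closed manifolds with a special cubical structure of nonpositive curvature.

Let `G` be a finite graph. The Davis complex of the right-angled Coxeter group `W G` is the CAT(0)
cube complex whose 1-skeleton is the Cayley graph of `W G`: the cubes at the vertex `x` are spanned by
the edges from `x` to `x s`, where `s` runs through a set `T` of pairwise adjacent vertices of `G`.
Let `X` be a convex subset of `W G` (the vertices of a convex subcomplex) which is invariant under a
subgroup `H` of `W G`, with finitely many orbits. If `H` is torsion-free, then `M = X/H` is a compact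
nonpositively curved cube complex with fundamental group `H` and contractible universal cover `X`; it
is special in the sense of Haglund and Wise, and each compact special cube complex has a finite
covering of this form. The link of the vertex `x` is the flag complex of the graph induced on
`lk G X x`. So `M` is a closed (homology) manifold of dimension `n` if all these flag complexes are
generalised homology spheres of dimension `n - 1` (`HSphere`), and it is oriented by `ω`, where `ω x`
is the fundamental cycle of the link of `x`.

The Euler characteristic of `M` is the sum over the vertices `x` of `M` of the numbers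
`chiW (G.induce (lk G X x)) = ∑_T (-1/2)^|T|`, where `T` runs through the simplices of the link of `x`.
The theorem: if the simplicial volume of `M` is zero, then each of these numbers is zero.

The right-angled Davis manifolds are the case `X = W G`.
-/

set_option autoImplicit false

open scoped Classical

namespace Pool.Agent.Results.MP_8a95ee_gt.SpecialCubedManifolds

open Pool.Agent.W907.SG (W chiW)
open Pool.Agent.Q134.SV (gen IsCyc ZeroSV)
open Pool.Agent.K4H70.SV (HSphere)
open Pool.Agent.K4H70.SC (Convex lk)

/-- `X/H` is a closed oriented special cubed (homology) manifold of dimension `n`: `X` is a nonempty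
convex set of vertices of the Davis complex of `W G`, invariant under the subgroup `H` with finitely
many orbits; the links of its vertices are generalised homology spheres of dimension `n - 1`; and `ω` is
an orientation of the cubes of dimension `n`, invariant under `H`: for each vertex `x` the chain `ω x`
is a nonzero cycle of the link of `x` (so a multiple of its fundamental cycle), and in passing from `x`
to its neighbour `x s` the sign of the cubes which contain the edge from `x` to `x s` changes (since
the direction `s` is reversed). -/
structure SpecialManifold (n : ℕ) {V : Type} [Fintype V] (G : SimpleGraph V) (X : Set (W G))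
    (H : Subgroup (W G)) (ω : W G → (Fin n → V) → ℝ) : Prop where
  nonempty : X.Nonempty
  convex : Convex G X
  invariant : ∀ h ∈ H, ∀ x ∈ X, h * x ∈ X
  cocompact : ∃ F : Finset (W G), ∀ x ∈ X, ∃ h ∈ H, ∃ y ∈ F, x = h * y
  sphere : ∀ x ∈ X, HSphere n (G.induce (lk G X x))
  cycle : ∀ x ∈ X, IsCyc n G (ω x)
  supp : ∀ x ∈ X, ∀ s, ω x s ≠ 0 → ∀ i, s i ∈ lk G X x
  ne_zero : ∀ x ∈ X, ω x ≠ 0
  orient : ∀ h ∈ H, ∀ x ∈ X, ω (h * x) = ω x
  flip : ∀ x ∈ X, ∀ s i, s i ∈ lk G X x → ω (x * gen G (s i)) s = - ω x s

/-- Let `X/H` be a closed oriented special cubed manifold of dimension `n ≥ 1`. If every bounded real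
`n`-cocycle of `H` is a coboundary, then for each vertex `x` of `X` the Euler characteristic of the
right-angled Coxeter group of the link of `x` is zero. -/
theorem result (n : ℕ) (hn : 1 ≤ n) (V : Type) [Fintype V] (G : SimpleGraph V) (X : Set (W G))
    (H : Subgroup (W G)) (ω : W G → (Fin n → V) → ℝ) (hM : SpecialManifold n G X H ω)
    (hz : ZeroSV n H) : ∀ x ∈ X, chiW (G.induce (lk G X x)) = 0 := by
  obtain ⟨m, rfl⟩ : ∃ m, n = m + 1 := ⟨n - 1, by omega⟩
  intro x hx
  have hinv : ∀ h ∈ H, ∀ y, h * y ∈ X ↔ y ∈ X := by
    intro h hh y
    constructor
    · intro hy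
      have := hM.invariant h⁻¹ (H.inv_mem hh) _ hy
      rwa [inv_mul_cancel_left] at this
    · exact hM.invariant h hh y
  have hgg : ∀ (y : W G) (s : V), y * gen G s * gen G s = y := by
    intro y s
    rw [mul_assoc, Pool.Agent.Q134.SV.gen_sq, mul_one]
  have hω : Pool.Agent.K4H70.SC.Ori G (m + 1) X H (fun y => if y ∈ X then ω y else 0) := by
    refine ⟨fun y => ?_, fun y s hs => ?_, fun h y => ?_, fun y s i => ?_⟩
    · by_cases hy : y ∈ X
      · rw [if_pos hy]; exact hM.cycle y hy
      · rw [if_neg hy]
        exact ⟨fun _ _ _ _ => by simp, fun _ h => absurd rfl h, fun _ _ => by simp⟩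
    · by_cases hy : y ∈ X
      · simp only [if_pos hy] at hs
        exact ⟨hy, hM.supp y hy s hs⟩
      · simp only [if_neg hy] at hs
        exact absurd rfl hs
    · by_cases hy : y ∈ X
      · simp only [if_pos hy, if_pos ((hinv h h.2 y).2 hy)]
        exact hM.orient h h.2 y hy
      · simp only [if_neg hy, if_neg fun h' => hy ((hinv h h.2 y).1 h')]
    · by_cases hy : y ∈ X
      · by_cases hy' : y * gen G (s i) ∈ X
        · simp only [if_pos hy, if_pos hy']
          exact hM.flip y hy s i hy'
        · simp only [if_pos hy, if_neg hy', Pi.zero_apply]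
          rw [eq_comm, neg_eq_zero]
          by_contra h0
          exact hy' (hM.supp y hy s h0 i)
      · by_cases hy' : y * gen G (s i) ∈ X
        · simp only [if_neg hy, if_pos hy', Pi.zero_apply, neg_zero]
          by_contra h0
          have := hM.supp _ hy' s h0 i
          apply hy
          have h1 : y * gen G (s i) * gen G (s i) ∈ X := this
          rwa [hgg] at h1
        · simp only [if_neg hy, if_neg hy', Pi.zero_apply, neg_zero]
  have hfin : (Pool.Agent.K4H70.SC.rc H '' X).Finite := by
    obtain ⟨F, hF⟩ := hM.cocompact
    refine (F.finite_toSet.image (Pool.Agent.K4H70.SC.rc H)).subset ?_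
    rintro _ ⟨y, hy, rfl⟩
    obtain ⟨h, hh, y', hy', rfl⟩ := hF y hy
    exact ⟨y', hy', Pool.Agent.K4H70.SC.rc_eq.2 ⟨⟨h, hh⟩, rfl⟩⟩
  refine Pool.Agent.K4H70.SC.link_chi hM.convex (fun h y hy => hM.invariant h h.2 y hy) hfin hω hz hx
    ?_ (hM.sphere x hx)
  simp only [if_pos hx]
  exact hM.ne_zero x hx

end Pool.Agent.Results.MP_8a95ee_gt.SpecialCubedManifolds
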